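import Pool.Agent.H85.MemGen
import Pool.Agent.H85.MemChr

/-!
# General versus chromatic memory for prefix-independent winning conditions
-/

namespace Pool.Agent.Results.MP_def589_lc.Separation

open Pool.Agent.H85.Mem

/-- one state of general memory is one state of chromatic memory -/
theorem not_genSuffices_one : ¬ GenSuffices WW 1 := by
  rintro ⟨-, h⟩
  refine not_chrSuffices 1 ⟨one_pos, fun A => ?_⟩
  obtain ⟨S, hS, m, hm, hb⟩ := h A
  refine ⟨S, hS, m, hm, ?_, hb⟩
  let _ := m.finM
  have h1 : Subsingleton m.M := Fintype.card_le_one_iff_subsingleton.1 hm.le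
  intro s e _ e' _ _
  exact Subsingleton.elim _ _

/-- There is a prefix-independent winning condition over `5` colours with `GenMem W = 2` and
`ChrMem W = +∞`. -/
theorem result : ∃ W : Set (ℕ → Fin 5), PrefixIndependent W ∧ GenMem W = 2 ∧ ChrMem W = ⊤ := by
  refine ⟨WW, WW_prefixIndependent, ?_, chrMem_WW⟩
  apply le_antisymm
  · exact iInf₂_le 2 genSuffices_two
  · refine le_iInf₂ fun k hk => ?_
    have h1 : 2 ≤ k := by
      have h2 : 0 < k := hk.1
      have h3 : k ≠ 1 := by
        rintro rfl
        exact not_genSuffices_one hk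
      omega
    exact_mod_cast h1

end Pool.Agent.Results.MP_def589_lc.Separation
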